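import Mathlib

/-!
Digit polynomials in a base of small argument stay away from the points `-γ ^ N`.
-/

namespace Pool.Agent.Work.MP_85e029_nt

open Finset

/-- Geometric bound for a digit polynomial. -/
lemma norm_sum_le (γ : ℂ) (m : ℕ) (h3 : 3 ≤ ‖γ‖) (a : ℕ → ℕ) (ha : ∀ j, a j ≤ m) (N : ℕ) :
    ‖∑ j ∈ range N, (a j : ℂ) * γ ^ j‖ ≤ m * ‖γ‖ ^ N / 2 := by
  induction N with
  | zero => simp; positivity
  | succ N ih =>
    rw [sum_range_succ]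
    have h1 : ‖(a N : ℂ) * γ ^ N‖ ≤ m * ‖γ‖ ^ N := by
      rw [norm_mul, norm_pow, Complex.norm_natCast]
      have : (a N : ℝ) ≤ m := by exact_mod_cast ha N
      gcongr
    have h2 : (0 : ℝ) ≤ m * ‖γ‖ ^ N := by positivity
    calc _ ≤ ‖∑ j ∈ range N, (a j : ℂ) * γ ^ j‖ + ‖(a N : ℂ) * γ ^ N‖ := norm_add_le _ _
      _ ≤ m * ‖γ‖ ^ N / 2 + m * ‖γ‖ ^ N := add_le_add ih h1
      _ ≤ m * ‖γ‖ ^ (N + 1) / 2 := by
        rw [pow_succ]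
        nlinarith

/-- The real part of a digit polynomial of degree `N + 2`, divided by `γ ^ (N + 2)`. -/
lemma re_div_ge (γ : ℂ) (m : ℕ) (h3 : 3 ≤ ‖γ‖) (h1 : 0 ≤ γ.re) (h2 : 0 ≤ (γ ^ 2).re)
    (hm : (m : ℝ) ≤ ‖γ‖ ^ 2) (a : ℕ → ℕ) (ha : ∀ j, a j ≤ m) (N : ℕ) :
    (a (N + 2) : ℝ) - 1 / 2 ≤ ((∑ j ∈ range (N + 3), (a j : ℂ) * γ ^ j) / γ ^ (N + 2)).re := by
  have hγ : γ ≠ 0 := by
    intro h; rw [h, norm_zero] at h3; norm_num at h3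
  have hpos : 0 < ‖γ‖ := norm_pos_iff.mpr hγ
  have e : (∑ j ∈ range (N + 3), (a j : ℂ) * γ ^ j) / γ ^ (N + 2)
      = (∑ j ∈ range N, (a j : ℂ) * γ ^ j) / γ ^ (N + 2) + (a N : ℂ) * (γ ^ 2)⁻¹
        + (a (N + 1) : ℂ) * γ⁻¹ + (a (N + 2) : ℂ) := by
    rw [sum_range_succ, sum_range_succ, sum_range_succ]
    field_simp
    ring
  have t0 : ‖(∑ j ∈ range N, (a j : ℂ) * γ ^ j) / γ ^ (N + 2)‖ ≤ 1 / 2 := by
    rw [norm_div, norm_pow, div_le_iff₀ (by positivity)]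
    calc _ ≤ m * ‖γ‖ ^ N / 2 := norm_sum_le γ m h3 a ha N
      _ ≤ ‖γ‖ ^ 2 * ‖γ‖ ^ N / 2 := by gcongr
      _ = 1 / 2 * ‖γ‖ ^ (N + 2) := by ring
  have t0' : -(1 / 2) ≤ ((∑ j ∈ range N, (a j : ℂ) * γ ^ j) / γ ^ (N + 2)).re := by
    have := (abs_le.mp ((Complex.abs_re_le_norm _).trans t0)).1
    exact this
  have t1 : 0 ≤ ((a N : ℂ) * (γ ^ 2)⁻¹).re := by
    rw [Complex.mul_re, Complex.natCast_re, Complex.natCast_im, zero_mul, sub_zero,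
      Complex.inv_re]
    have := Complex.normSq_nonneg (γ ^ 2)
    positivity
  have t2 : 0 ≤ ((a (N + 1) : ℂ) * γ⁻¹).re := by
    rw [Complex.mul_re, Complex.natCast_re, Complex.natCast_im, zero_mul, sub_zero,
      Complex.inv_re]
    have := Complex.normSq_nonneg γ
    positivity
  rw [e, Complex.add_re, Complex.add_re, Complex.add_re, Complex.natCast_re]
  linarith

/-- Every digit polynomial with at least `N + 3` terms is far from `-γ ^ (N + 2)`. -/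
lemma far_of_long (γ : ℂ) (m : ℕ) (h3 : 3 ≤ ‖γ‖) (h1 : 0 ≤ γ.re) (h2 : 0 ≤ (γ ^ 2).re)
    (hm : (m : ℝ) ≤ ‖γ‖ ^ 2) (a : ℕ → ℕ) (ha : ∀ j, a j ≤ m) (N k : ℕ) :
    ‖γ‖ ^ (N + 2) / 2 ≤ ‖∑ j ∈ range (N + k + 3), (a j : ℂ) * γ ^ j + γ ^ (N + 2)‖ := by
  have hγ : γ ≠ 0 := by
    intro h; rw [h, norm_zero] at h3; norm_num at h3
  have hpos : 0 < ‖γ‖ := norm_pos_iff.mpr hγ
  induction k with
  | zero =>
    have h := re_div_ge γ m h3 h1 h2 hm a ha N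
    set x := ∑ j ∈ range (N + 3), (a j : ℂ) * γ ^ j with hx
    have e : x + γ ^ (N + 2) = (x / γ ^ (N + 2) + 1) * γ ^ (N + 2) := by
      field_simp
    have h0 : (0 : ℝ) ≤ a (N + 2) := by positivity
    have h4 : 1 / 2 ≤ ‖x / γ ^ (N + 2) + 1‖ := by
      refine le_trans ?_ (Complex.re_le_norm _)
      rw [Complex.add_re, Complex.one_re]
      linarith
    show _ ≤ ‖x + γ ^ (N + 2)‖
    rw [e, norm_mul, norm_pow]
    have : 0 ≤ ‖γ‖ ^ (N + 2) := by positivity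
    nlinarith
  | succ k ih =>
    by_cases h0 : a (N + k + 3) = 0
    · rw [show N + (k + 1) + 3 = N + k + 3 + 1 by ring, sum_range_succ, h0]
      simpa using ih
    · have h := re_div_ge γ m h3 h1 h2 hm a ha (N + k + 1)
      rw [show N + k + 1 + 3 = N + (k + 1) + 3 by ring] at h
      set x := ∑ j ∈ range (N + (k + 1) + 3), (a j : ℂ) * γ ^ j with hx
      have h5 : (1 : ℝ) ≤ a (N + k + 1 + 2) := by
        have : 1 ≤ a (N + k + 3) := Nat.one_le_iff_ne_zero.mpr h0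
        exact_mod_cast this
      have h4 : 1 / 2 ≤ ‖x / γ ^ (N + k + 1 + 2)‖ := by
        refine le_trans ?_ (Complex.re_le_norm _)
        linarith
      rw [norm_div, norm_pow, le_div_iff₀ (by positivity)] at h4
      have h6 : 3 * ‖γ‖ ^ (N + 2) ≤ ‖γ‖ ^ (N + k + 1 + 2) := by
        have e : ‖γ‖ ^ (N + k + 1 + 2) = ‖γ‖ * ‖γ‖ ^ k * ‖γ‖ ^ (N + 2) := by ring
        rw [e]
        have hk : 1 ≤ ‖γ‖ ^ k := one_le_pow₀ (by linarith)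
        have : 3 ≤ ‖γ‖ * ‖γ‖ ^ k := by nlinarith
        gcongr
      have h7 : ‖x‖ ≤ ‖x + γ ^ (N + 2)‖ + ‖γ‖ ^ (N + 2) := by
        calc ‖x‖ = ‖(x + γ ^ (N + 2)) - γ ^ (N + 2)‖ := by simp
          _ ≤ ‖x + γ ^ (N + 2)‖ + ‖γ ^ (N + 2)‖ := norm_sub_le _ _
          _ = _ := by rw [norm_pow]
      linarith

/-- Every digit polynomial is far from `-γ ^ (N + 2)`. -/
lemma far (γ : ℂ) (m : ℕ) (h3 : 3 ≤ ‖γ‖) (h1 : 0 ≤ γ.re) (h2 : 0 ≤ (γ ^ 2).re)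
    (hm : (m : ℝ) ≤ ‖γ‖ ^ 2) (a : ℕ → ℕ) (ha : ∀ j, a j ≤ m) (N n : ℕ) :
    ‖γ‖ ^ (N + 2) / 2 ≤ ‖∑ j ∈ range n, (a j : ℂ) * γ ^ j + γ ^ (N + 2)‖ := by
  have h := far_of_long γ m h3 h1 h2 hm (fun j => if j < n then a j else 0)
    (fun j => by by_cases hj : j < n <;> simp [hj, ha j]) N n
  have e : ∑ j ∈ range (N + n + 3), (((if j < n then a j else 0 : ℕ)) : ℂ) * γ ^ j
      = ∑ j ∈ range n, (a j : ℂ) * γ ^ j := by
    symm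
    apply sum_subset_zero_on_sdiff
    · intro j hj
      simp only [mem_range] at hj ⊢
      omega
    · intro j hj
      simp only [mem_sdiff, mem_range] at hj
      simp [hj.2]
    · intro j hj
      simp only [mem_range] at hj
      simp [hj]
  rw [e] at h
  exact h

/-- Arbitrarily large discs free of digit polynomials. -/
theorem holes (γ : ℂ) (m : ℕ) (h3 : 3 ≤ ‖γ‖) (h1 : 0 ≤ γ.re) (h2 : 0 ≤ (γ ^ 2).re)
    (hm : (m : ℝ) ≤ ‖γ‖ ^ 2) (R : ℝ) :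
    ∃ c : ℂ, ∀ (n : ℕ) (a : ℕ → ℕ), (∀ j, a j ≤ m) →
      ∑ j ∈ range n, (a j : ℂ) * γ ^ j ∉ Metric.closedBall c R := by
  obtain ⟨N, hN⟩ := pow_unbounded_of_one_lt (2 * R) (show (1 : ℝ) < ‖γ‖ by linarith)
  refine ⟨-γ ^ (N + 2), fun n a ha hmem => ?_⟩
  rw [Metric.mem_closedBall, dist_eq_norm, sub_neg_eq_add] at hmem
  have h := far γ m h3 h1 h2 hm a ha N n
  have h4 : ‖γ‖ ^ N ≤ ‖γ‖ ^ (N + 2) := pow_le_pow_right₀ (by linarith) (by omega)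
  linarith

/-- A real root of `Y ^ 3 - 6 Y ^ 2 + 13 Y - 1` between `1 / 13` and `1 / 12`. -/
lemma exists_root : ∃ t : ℝ, 1 / 13 < t ∧ t < 1 / 12 ∧ t ^ 3 - 6 * t ^ 2 + 13 * t - 1 = 0 := by
  have hc : ContinuousOn (fun t : ℝ => t ^ 3 - 6 * t ^ 2 + 13 * t - 1) (Set.Icc (1 / 13) (1 / 12)) := by
    fun_prop
  have h := intermediate_value_Ioo (show (1 / 13 : ℝ) ≤ 1 / 12 by norm_num) hc
  have h0 : (0 : ℝ) ∈ Set.Ioo ((fun t : ℝ => t ^ 3 - 6 * t ^ 2 + 13 * t - 1) (1 / 13))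
      ((fun t : ℝ => t ^ 3 - 6 * t ^ 2 + 13 * t - 1) (1 / 12)) := by
    constructor <;> norm_num
  obtain ⟨t, ht, ht0⟩ := h h0
  exact ⟨t, ht.1, ht.2, ht0⟩

/-- The non-real root of the cubic and the facts about it that we use. -/
lemma exists_gamma : ∃ (γ : ℂ) (t : ℝ), 0 < t ∧ t < 1 ∧ γ.im ≠ 0 ∧ 12 < ‖γ‖ ^ 2 ∧ ‖γ‖ ^ 2 < 13 ∧
    0 ≤ γ.re ∧ 0 ≤ (γ ^ 2).re ∧
    ∀ z : ℂ, z ^ 3 - 6 * z ^ 2 + 13 * z - 1 = (z - t) * (z - γ) * (z - (starRingEnd ℂ) γ) := by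
  obtain ⟨t, ht1, ht2, ht0⟩ := exists_root
  have htpos : 0 < t := by linarith
  set c : ℝ := t ^ 2 - 6 * t + 13 with hc
  have htc : t * c = 1 := by rw [hc]; linarith
  have hc1 : 12 < c := by nlinarith
  have hc2 : c < 13 := by nlinarith
  have hD : 0 < c - ((6 - t) / 2) ^ 2 := by nlinarith
  set s : ℝ := Real.sqrt (c - ((6 - t) / 2) ^ 2) with hs
  have hs2 : s ^ 2 = c - ((6 - t) / 2) ^ 2 := Real.sq_sqrt hD.le
  have hspos : 0 < s := Real.sqrt_pos.mpr hD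
  have hn : ‖(⟨(6 - t) / 2, s⟩ : ℂ)‖ ^ 2 = c := by
    rw [Complex.sq_norm, Complex.normSq_mk]
    nlinarith
  refine ⟨⟨(6 - t) / 2, s⟩, t, htpos, by linarith, hspos.ne', by rw [hn]; exact hc1,
    by rw [hn]; exact hc2, ?_, ?_, ?_⟩
  · show 0 ≤ (6 - t) / 2
    linarith
  · rw [sq, Complex.mul_re]
    show 0 ≤ (6 - t) / 2 * ((6 - t) / 2) - s * s
    nlinarith
  · intro z
    have e1 : (⟨(6 - t) / 2, s⟩ : ℂ) + (starRingEnd ℂ) ⟨(6 - t) / 2, s⟩ = 6 - t := by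
      rw [Complex.add_conj]
      push_cast
      ring
    have e2 : (⟨(6 - t) / 2, s⟩ : ℂ) * (starRingEnd ℂ) ⟨(6 - t) / 2, s⟩ = c := by
      rw [Complex.mul_conj, ← Complex.sq_norm, hn]
    have e3 : (t : ℂ) * c = 1 := by exact_mod_cast htc
    have e4 : (c : ℂ) = t ^ 2 - 6 * t + 13 := by rw [hc]; push_cast; ring
    set g : ℂ := ⟨(6 - t) / 2, s⟩
    set g' : ℂ := (starRingEnd ℂ) g
    linear_combination (z ^ 2 - t * z) * e1 - (z - t) * e2 + e3 - z * e4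

end Pool.Agent.Work.MP_85e029_nt
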