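import Mathlib

/-! Bases with a small argument: digit sums lie in thin sectors. -/

namespace Pool.Agent.Work.MP_85e029_nt.Thin

open Finset Complex

theorem geo {ρ : ℝ} (h : 3 ≤ ρ) (L N n : ℕ) :
    ∑ j ∈ range n, (if j + L < N then ρ ^ (j + L) else 0) ≤ ρ ^ min (n + L) N / 2 := by
  have h0 : 0 < ρ := by linarith
  induction n with
  | zero => simp only [range_zero, sum_empty]; positivity
  | succ n ih =>
    rw [sum_range_succ]
    split_ifs with h1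
    · rw [min_eq_left h1.le] at ih
      rw [min_eq_left (by omega), show n + 1 + L = n + L + 1 by ring, pow_succ]
      nlinarith [pow_pos h0 (n + L)]
    · rw [min_eq_right (by omega)] at ih
      rw [min_eq_right (by omega), add_zero]
      exact ih

variable {γ : ℂ} {L m : ℕ}

theorem low (h : 3 ≤ ‖γ‖) (hre : ∀ i ≤ L, 0 ≤ (γ ^ i).re) (hm : (m : ℝ) ≤ ‖γ‖ ^ L) (N n : ℕ)
    (hn : n ≤ N + L + 1) (a : ℕ → ℕ) (ha : ∀ j, a j ≤ m) :
    -(‖γ‖ ^ N * ‖γ‖ ^ N / 2) ≤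
      ((∑ j ∈ range n, (a j : ℂ) * γ ^ j) * (starRingEnd ℂ) (γ ^ N)).re := by
  have h0 : 0 < ‖γ‖ := by linarith
  have h1 : ∀ j ∈ range n, -(‖γ‖ ^ N * if j + L < N then ‖γ‖ ^ (j + L) else 0) ≤
      ((a j : ℂ) * γ ^ j * (starRingEnd ℂ) (γ ^ N)).re := by
    intro j hj
    have hj' := mem_range.1 hj
    split_ifs with h2
    · refine le_trans ?_ (neg_le_of_abs_le (abs_re_le_norm _))
      rw [neg_le_neg_iff, norm_mul, norm_mul, norm_conj, norm_pow, norm_pow, norm_natCast, pow_add]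
      have h3 : (a j : ℝ) ≤ ‖γ‖ ^ L := le_trans (by exact_mod_cast ha j) hm
      have h4 := mul_le_mul_of_nonneg_right h3 (mul_pos (pow_pos h0 j) (pow_pos h0 N)).le
      linarith
    · rw [mul_zero, neg_zero, mul_assoc, ← ofReal_natCast, re_ofReal_mul]
      refine mul_nonneg (Nat.cast_nonneg _) ?_
      rcases le_total N j with h3 | h3
      · obtain ⟨i, rfl⟩ := Nat.exists_eq_add_of_le h3
        rw [pow_add, mul_right_comm, mul_conj, re_ofReal_mul]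
        exact mul_nonneg (normSq_nonneg _) (hre i (by omega))
      · obtain ⟨i, rfl⟩ := Nat.exists_eq_add_of_le h3
        rw [pow_add, map_mul, ← mul_assoc, mul_conj, re_ofReal_mul, conj_re]
        exact mul_nonneg (normSq_nonneg _) (hre i (by omega))
  rw [sum_mul, re_sum]
  refine le_trans ?_ (sum_le_sum h1)
  rw [sum_neg_distrib, ← mul_sum, neg_le_neg_iff, mul_div_assoc]
  refine mul_le_mul_of_nonneg_left ((geo h L N n).trans ?_) (pow_pos h0 N).le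
  exact div_le_div_of_nonneg_right (pow_le_pow_right₀ (by linarith) (min_le_right _ _)) two_pos.le

theorem alt (h : 3 ≤ ‖γ‖) (hL : 1 ≤ L) (hre : ∀ i ≤ L, 0 ≤ (γ ^ i).re) (hm : (m : ℝ) ≤ ‖γ‖ ^ L)
    (N : ℕ) (a : ℕ → ℕ) (ha : ∀ j, a j ≤ m) (n : ℕ) :
    -(‖γ‖ ^ N * ‖γ‖ ^ N / 2) ≤
      ((∑ j ∈ range n, (a j : ℂ) * γ ^ j) * (starRingEnd ℂ) (γ ^ N)).re ∨
      4 * ‖γ‖ ^ N ≤ ‖∑ j ∈ range n, (a j : ℂ) * γ ^ j‖ := by
  have h0 : 0 < ‖γ‖ := by linarith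
  induction n with
  | zero => exact Or.inl (low h hre hm N 0 (by omega) a ha)
  | succ n ih =>
    by_cases h1 : a n = 0
    · rwa [sum_range_succ, h1, Nat.cast_zero, zero_mul, add_zero]
    by_cases h2 : n ≤ N + L
    · exact Or.inl (low h hre hm N (n + 1) (by omega) a ha)
    right
    have h3 := low h hre hm n n (by omega) a ha
    have h4 : (1 : ℝ) ≤ a n := by exact_mod_cast Nat.one_le_iff_ne_zero.2 h1
    have h5 := re_le_norm ((∑ j ∈ range (n + 1), (a j : ℂ) * γ ^ j) * (starRingEnd ℂ) (γ ^ n))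
    rw [norm_mul, norm_conj, norm_pow] at h5
    have h6 : ((a n : ℂ) * γ ^ n * (starRingEnd ℂ) (γ ^ n)).re = a n * (‖γ‖ ^ n * ‖γ‖ ^ n) := by
      rw [mul_assoc, mul_conj, ← ofReal_natCast, ← ofReal_mul, ofReal_re, normSq_eq_norm_sq,
        norm_pow, sq]
    rw [sum_range_succ, add_mul, add_re, h6, ← sum_range_succ (fun j => (a j : ℂ) * γ ^ j)] at h5
    have h7 := pow_pos h0 n
    have h8 : ‖γ‖ ^ n / 2 ≤ ‖∑ j ∈ range (n + 1), (a j : ℂ) * γ ^ j‖ :=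
      le_of_mul_le_mul_right (by nlinarith [mul_pos h7 h7]) h7
    have h9 : ‖γ‖ ^ (N + 2) ≤ ‖γ‖ ^ n := pow_le_pow_right₀ (by linarith) (by omega)
    rw [pow_add] at h9
    have h10 : 9 ≤ ‖γ‖ ^ 2 := by nlinarith
    nlinarith [pow_pos h0 N]

theorem holes (h : 3 ≤ ‖γ‖) (hL : 1 ≤ L) (hre : ∀ i ≤ L, 0 ≤ (γ ^ i).re)
    (hm : (m : ℝ) ≤ ‖γ‖ ^ L) (R : ℝ) : ∃ c : ℂ, ∀ (n : ℕ) (a : ℕ → ℕ), (∀ j, a j ≤ m) →
      ∑ j ∈ range n, (a j : ℂ) * γ ^ j ∉ Metric.closedBall c R := by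
  obtain ⟨N, hN⟩ := pow_unbounded_of_one_lt R (show 1 < ‖γ‖ by linarith)
  have h0 : 0 < ‖γ‖ ^ N := pow_pos (by linarith) N
  refine ⟨-(2 * γ ^ N), fun n a ha hz => ?_⟩
  rw [mem_closedBall_iff_norm, sub_neg_eq_add] at hz
  have h1 := alt h hL hre hm N a ha n
  set z := ∑ j ∈ range n, (a j : ℂ) * γ ^ j
  rcases h1 with h1 | h1
  · have h2 := re_le_norm ((z + 2 * γ ^ N) * (starRingEnd ℂ) (γ ^ N))
    have h3 : (2 * γ ^ N * (starRingEnd ℂ) (γ ^ N)).re = 2 * (‖γ‖ ^ N * ‖γ‖ ^ N) := by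
      rw [mul_assoc, mul_conj, ← ofReal_ofNat, ← ofReal_mul, ofReal_re, normSq_eq_norm_sq,
        norm_pow, sq]
    rw [norm_mul, norm_conj, norm_pow, add_mul, add_re, h3] at h2
    nlinarith [mul_pos h0 h0]
  · have h2 := norm_sub_le (z + 2 * γ ^ N) (2 * γ ^ N)
    rw [add_sub_cancel_right, norm_mul, norm_pow, Complex.norm_ofNat] at h2
    linarith

theorem re_pow (hx : 0 < γ.re) (hy : L * |γ.im| ≤ ‖γ‖) (i : ℕ) (hi : i ≤ L) : 0 ≤ (γ ^ i).re := by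
  have h0 : 0 < ‖γ‖ := hx.trans_le (re_le_norm γ)
  have h1 : |arg γ| < Real.pi / 2 := abs_arg_lt_pi_div_two_iff.2 (Or.inl hx)
  have h2 := Real.mul_abs_le_abs_sin h1.le
  rw [sin_arg, abs_div, abs_of_pos h0, le_div_iff₀ h0] at h2
  have hπ := Real.pi_pos
  have h3 : (i : ℝ) ≤ L := by exact_mod_cast hi
  have h4 : |i * arg γ| ≤ Real.pi / 2 := by
    rw [abs_mul, Nat.abs_cast]
    have h5 : L * (2 / Real.pi * |arg γ| * ‖γ‖) ≤ 1 * ‖γ‖ :=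
      (mul_le_mul_of_nonneg_left h2 (Nat.cast_nonneg _)).trans (by linarith)
    rw [← mul_assoc] at h5
    have h6 := le_of_mul_le_mul_right h5 h0
    have h7 : L * |arg γ| = L * (2 / Real.pi * |arg γ|) * (Real.pi / 2) := by field_simp
    nlinarith [mul_le_mul_of_nonneg_right h3 (abs_nonneg (arg γ))]
  have e : γ ^ i = (‖γ‖ ^ i : ℝ) * exp ((i * arg γ : ℝ) * I) := by
    conv_lhs => rw [← norm_mul_exp_arg_mul_I γ]
    rw [mul_pow, ← exp_nat_mul]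
    push_cast
    rw [mul_assoc]
  rw [e, re_ofReal_mul, exp_ofReal_mul_I_re]
  exact mul_nonneg (pow_pos h0 i).le (Real.cos_nonneg_of_mem_Icc (abs_le.1 h4))

theorem exists_gamma {N : ℝ} (hN : 2 ≤ N) : ∃ (γ : ℂ) (t : ℝ), 0 < t ∧ t < 1 ∧ γ.im ≠ 0 ∧
    |γ.im| ≤ 2 ∧ N - 1 ≤ γ.re ∧ ∀ z : ℂ, z ^ 3 - 2 * N * z ^ 2 + (N ^ 2 + 1) * z - 1 =
      (z - t) * (z - γ) * (z - (starRingEnd ℂ) γ) := by
  have h0 : 0 < N := by linarith
  have h1 : 0 < N⁻¹ := inv_pos.2 h0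
  have h2 : N * N⁻¹ = 1 := mul_inv_cancel₀ h0.ne'
  have h3 : N⁻¹ ≤ 1 / 2 := by nlinarith
  obtain ⟨t, ⟨t0, t1⟩, ht⟩ := intermediate_value_Icc h1.le
    (f := fun t : ℝ => t ^ 3 - 2 * N * t ^ 2 + (N ^ 2 + 1) * t - 1) (by fun_prop)
    (show (0 : ℝ) ∈ _ from ⟨by norm_num, by
      have e : N⁻¹ ^ 3 - 2 * N * N⁻¹ ^ 2 + (N ^ 2 + 1) * N⁻¹ - 1 = N⁻¹ ^ 3 - N⁻¹ + N - 1 := by
        field_simp; ring
      simp only [e]
      linarith [pow_pos h1 3]⟩)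
  simp only at ht
  have t2 : 0 < t := lt_of_le_of_ne t0 (by rintro rfl; norm_num at ht)
  have t3 : N * t ≤ 1 := by nlinarith
  have d0 : 0 < 1 - N * t + 3 * t ^ 2 / 4 := by nlinarith [pow_pos t2 2]
  have d1 := Real.sq_sqrt d0.le
  have d2 := Real.sqrt_pos.2 d0
  set y := √(1 - N * t + 3 * t ^ 2 / 4)
  refine ⟨⟨N - t / 2, y⟩, t, t2, by linarith, d2.ne', ?_, by simp only; linarith, fun z => ?_⟩
  · simp only
    rw [abs_of_pos d2]
    nlinarith [mul_pos h0 t2]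
  · have e1 : (⟨N - t / 2, y⟩ : ℂ) = (N - t / 2 : ℂ) + y * I := by
      apply Complex.ext <;> simp
    have e2 : (starRingEnd ℂ) (⟨N - t / 2, y⟩ : ℂ) = (N - t / 2 : ℂ) - y * I := by
      apply Complex.ext <;> simp
    have c1 : (y : ℂ) ^ 2 = 1 - N * t + 3 * t ^ 2 / 4 := by exact_mod_cast d1
    have c2 : (t : ℂ) ^ 3 - 2 * N * t ^ 2 + (N ^ 2 + 1) * t - 1 = 0 := by exact_mod_cast ht
    rw [e2, e1]
    linear_combination c2 - (z - t) * c1 + (z - t) * (y : ℂ) ^ 2 * I_sq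

end Pool.Agent.Work.MP_85e029_nt.Thin
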